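import Mathlib

/-! # The disc algebra and an open semigroup in it -/

set_option autoImplicit false

open Filter Topology Metric Set

namespace Pool.Agent.X86.OS

open Classical in
/-- The extension by zero of a function on the closed unit disc. -/
noncomputable def ext (f : C(closedBall (0:ℂ) 1, ℂ)) (z : ℂ) : ℂ :=
  if h : z ∈ closedBall (0:ℂ) 1 then f ⟨z, h⟩ else 0

lemma ext_of_mem (f : C(closedBall (0:ℂ) 1, ℂ)) {z : ℂ} (h : z ∈ closedBall (0:ℂ) 1) :
    ext f z = f ⟨z, h⟩ := dif_pos h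

lemma ext_mul (f g : C(closedBall (0:ℂ) 1, ℂ)) (z : ℂ) : ext (f * g) z = ext f z * ext g z := by
  unfold ext
  split_ifs with h
  · rfl
  · simp

lemma ext_add (f g : C(closedBall (0:ℂ) 1, ℂ)) (z : ℂ) : ext (f + g) z = ext f z + ext g z := by
  unfold ext
  split_ifs with h
  · rfl
  · simp

lemma ext_sub (f g : C(closedBall (0:ℂ) 1, ℂ)) (z : ℂ) : ext (f - g) z = ext f z - ext g z := by
  unfold ext
  split_ifs with h
  · rfl
  · simp

lemma norm_ext_le (f : C(closedBall (0:ℂ) 1, ℂ)) (z : ℂ) : ‖ext f z‖ ≤ ‖f‖ := by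
  unfold ext
  split_ifs with h
  · exact f.norm_coe_le_norm _
  · simp

lemma continuousOn_ext (f : C(closedBall (0:ℂ) 1, ℂ)) : ContinuousOn (ext f) (closedBall 0 1) := by
  rw [continuousOn_iff_continuous_domRestrict]
  have : (closedBall (0:ℂ) 1).domRestrict (ext f) = f := by
    funext z
    rw [Set.domRestrict_apply, ext_of_mem f z.2]
  rw [this]
  exact f.continuous

/-- The disc algebra: continuous functions on the closed unit disc that are holomorphic inside. -/
noncomputable def discAlg : Subalgebra ℂ C(closedBall (0:ℂ) 1, ℂ) where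
  carrier := {f | DifferentiableOn ℂ (ext f) (ball 0 1)}
  mul_mem' := by
    intro f g hf hg
    have : ext (f * g) = fun z => ext f z * ext g z := funext (ext_mul f g)
    show DifferentiableOn ℂ (ext (f * g)) (ball 0 1)
    rw [this]
    exact DifferentiableOn.mul hf hg
  add_mem' := by
    intro f g hf hg
    have : ext (f + g) = fun z => ext f z + ext g z := funext (ext_add f g)
    show DifferentiableOn ℂ (ext (f + g)) (ball 0 1)
    rw [this]
    exact DifferentiableOn.add hf hg
  algebraMap_mem' := by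
    intro c
    show DifferentiableOn ℂ (ext (algebraMap ℂ _ c)) (ball 0 1)
    refine (differentiableOn_const c).congr ?_
    intro z hz
    rw [ext_of_mem _ (ball_subset_closedBall hz)]
    simp

lemma mem_discAlg {f : C(closedBall (0:ℂ) 1, ℂ)} :
    f ∈ discAlg ↔ DifferentiableOn ℂ (ext f) (ball 0 1) := Iff.rfl

lemma isClosed_discAlg : IsClosed (discAlg : Set C(closedBall (0:ℂ) 1, ℂ)) := by
  rw [← isSeqClosed_iff_isClosed]
  intro u f hu hf
  show DifferentiableOn ℂ (ext f) (ball 0 1)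
  have h1 : TendstoUniformlyOn (fun n => ext (u n)) (ext f) atTop (ball 0 1) := by
    rw [Metric.tendstoUniformlyOn_iff]
    intro ε hε
    filter_upwards [(Metric.tendsto_nhds.mp hf) ε hε] with n hn z _
    rw [dist_eq_norm, ← ext_sub]
    refine lt_of_le_of_lt (norm_ext_le _ _) ?_
    rwa [← dist_eq_norm, dist_comm]
  exact h1.tendstoLocallyUniformlyOn.differentiableOn (Eventually.of_forall fun n => hu n)
    isOpen_ball

noncomputable instance : CompleteSpace discAlg := isClosed_discAlg.completeSpace_coe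

/-- The open semigroup: functions without zeros on the unit circle that have a zero in `‖z‖ < r`
or a continuous square root on the unit circle. -/
def SS (r : ℝ) : Set discAlg :=
  {f | (∀ z ∈ sphere (0:ℂ) 1, ext f.1 z ≠ 0) ∧
    ((∃ z ∈ ball (0:ℂ) r, ext f.1 z = 0) ∨
      ∃ g : ℂ → ℂ, ContinuousOn g (sphere 0 1) ∧ ∀ z ∈ sphere (0:ℂ) 1, g z ^ 2 = ext f.1 z)}

lemma SS_mul {r : ℝ} {f g : discAlg} (hf : f ∈ SS r) (hg : g ∈ SS r) : f * g ∈ SS r := by
  have e : ∀ z, ext (f * g).1 z = ext f.1 z * ext g.1 z := fun z => ext_mul _ _ z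
  refine ⟨fun z hz => ?_, ?_⟩
  · rw [e]
    exact mul_ne_zero (hf.1 z hz) (hg.1 z hz)
  · rcases hf.2 with ⟨z, hz, h⟩ | ⟨u, hu, hu2⟩
    · exact Or.inl ⟨z, hz, by rw [e, h, zero_mul]⟩
    rcases hg.2 with ⟨z, hz, h⟩ | ⟨v, hv, hv2⟩
    · exact Or.inl ⟨z, hz, by rw [e, h, mul_zero]⟩
    refine Or.inr ⟨fun z => u z * v z, hu.mul hv, fun z hz => ?_⟩
    rw [e, mul_pow, hu2 z hz, hv2 z hz]

/-- A continuous square root exists for functions close to one. -/
lemma sqrt_near {s : Set ℂ} {q : ℂ → ℂ} (hq : ContinuousOn q s)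
    (h : ∀ z ∈ s, ‖q z - 1‖ < 1) :
    ∃ g : ℂ → ℂ, ContinuousOn g s ∧ ∀ z ∈ s, g z ^ 2 = q z := by
  refine ⟨fun z => q z ^ ((2:ℕ):ℂ)⁻¹, ?_, fun z hz => Complex.cpow_nat_inv_pow _ two_ne_zero⟩
  refine ContinuousOn.cpow hq continuousOn_const ?_
  intro z hz
  have h1 := h z hz
  refine Complex.mem_slitPlane_iff.mpr (Or.inl ?_)
  have h2 : |(q z - 1).re| ≤ ‖q z - 1‖ := Complex.abs_re_le_norm _
  have h3 : (q z - 1).re = (q z).re - 1 := by simp
  rw [h3, abs_le] at h2
  linarith [h2.1]

/-- There is no continuous square root on the circle. -/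
lemma no_sqrt : ¬ ∃ g : ℂ → ℂ, ContinuousOn g (sphere 0 1) ∧ ∀ z ∈ sphere (0:ℂ) 1, g z ^ 2 = z := by
  rintro ⟨h, hc, hs⟩
  have hpre : IsPreconnected (sphere (0:ℂ) 1) := by
    refine isPreconnected_sphere ?_ _ _
    rw [Complex.rank_real_complex]
    norm_num
  have hneg : ∀ z ∈ sphere (0:ℂ) 1, -z ∈ sphere (0:ℂ) 1 := by
    intro z hz
    simpa using hz
  have h0 : ∀ z ∈ sphere (0:ℂ) 1, h z ≠ 0 := by
    intro z hz h0
    have := hs z hz
    rw [h0] at this
    rw [mem_sphere_zero_iff_norm, ← this] at hz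
    simp at hz
  have key := hpre.eq_or_eq_neg_of_sq_eq (f := fun z => h (-z)) (g := fun z => Complex.I * h z)
    (hc.comp continuous_neg.continuousOn hneg) (continuousOn_const.mul hc)
    (fun z hz => by
      simp only [Pi.pow_apply]
      rw [hs _ (hneg z hz), mul_pow, Complex.I_sq, hs z hz]
      ring)
    (fun hz => mul_ne_zero Complex.I_ne_zero (h0 _ hz))
  have h1 : (1:ℂ) ∈ sphere (0:ℂ) 1 := by simp
  have h1' : (-1:ℂ) ∈ sphere (0:ℂ) 1 := by simp
  have hne := h0 1 h1
  rcases key with key | key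
  · have a1 := key h1
    have a2 := key h1'
    simp only [neg_neg] at a1 a2
    rw [a1, ← mul_assoc, Complex.I_mul_I] at a2
    apply hne
    have : (2:ℂ) * h 1 = 0 := by linear_combination a2
    simpa using this
  · have a1 := key h1
    have a2 := key h1'
    simp only [neg_neg, Pi.neg_apply] at a1 a2
    rw [a1] at a2
    apply hne
    have : (2:ℂ) * h 1 = 0 := by
      linear_combination a2 + Complex.I_mul_I * h 1
    simpa using this

end Pool.Agent.X86.OS
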