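import Pool.Agent.X86.OS.Disc

/-! # Openness of the semigroup and the distances of the powers of `z` -/

set_option autoImplicit false

open Filter Topology Metric Set

namespace Pool.Agent.X86.OS

lemma lower_bound {s : Set ℂ} (hs : IsCompact s) {F : ℂ → ℂ} (hF : ContinuousOn F s)
    (h0 : ∀ z ∈ s, F z ≠ 0) : ∃ m > 0, ∀ z ∈ s, m ≤ ‖F z‖ := by
  rcases s.eq_empty_or_nonempty with rfl | hne
  · exact ⟨1, one_pos, by simp⟩
  obtain ⟨z, hz, hmin⟩ := hs.exists_isMinOn hne hF.norm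
  exact ⟨‖F z‖, norm_pos_iff.mpr (h0 z hz), fun w hw => hmin hw⟩

lemma norm_ext_sub_le (f g : discAlg) (z : ℂ) : ‖ext f.1 z - ext g.1 z‖ ≤ dist f g := by
  rw [← ext_sub, Subtype.dist_eq, dist_eq_norm]
  exact norm_ext_le _ _

/-- The zero is stable. -/
lemma zero_stable {r : ℝ} (hr : r ≤ 1) {f : discAlg}
    (h1 : ∀ z ∈ sphere (0:ℂ) 1, ext f.1 z ≠ 0) {z₀ : ℂ} (hz₀ : z₀ ∈ ball (0:ℂ) r)
    (hf : ext f.1 z₀ = 0) :
    ∃ ε > 0, ∀ g : discAlg, dist g f < ε → ∃ z ∈ ball (0:ℂ) r, ext g.1 z = 0 := by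
  have hsub : ball (0:ℂ) r ⊆ ball 0 1 := ball_subset_ball hr
  have hd : ∀ g : discAlg, DifferentiableOn ℂ (ext g.1) (ball 0 1) := fun g => g.2
  have ha : AnalyticOnNhd ℂ (ext f.1) (ball 0 1) := (hd f).analyticOnNhd isOpen_ball
  have hne : ∀ᶠ z in 𝓝[≠] z₀, ext f.1 z ≠ 0 := by
    rcases (ha z₀ (hsub hz₀)).eventually_eq_zero_or_eventually_ne_zero with h | h
    · exfalso
      have h2 : EqOn (ext f.1) 0 (ball 0 1) :=
        ha.eqOn_zero_of_preconnected_of_eventuallyEq_zero (convex_ball _ _).isPreconnected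
          (hsub hz₀) h
      have h3 : EqOn (ext f.1) (fun _ => (0:ℂ)) (closure (ball 0 1)) := by
        refine h2.of_subset_closure (t := closure (ball 0 1)) ?_ continuousOn_const subset_closure
          subset_rfl
        rw [closure_ball _ one_ne_zero]
        exact continuousOn_ext _
      have h4 : (1:ℂ) ∈ sphere (0:ℂ) 1 := by simp
      refine h1 1 h4 (h3 ?_)
      rw [closure_ball _ one_ne_zero]
      exact sphere_subset_closedBall h4
    · exact h
  have hin : ∀ᶠ z in 𝓝[≠] z₀, z ∈ ball (0:ℂ) r :=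
    nhdsWithin_le_nhds (isOpen_ball.mem_nhds hz₀)
  obtain ⟨δ, hδ, hδ2⟩ := Metric.mem_nhdsWithin_iff.mp (hne.and hin)
  have hgood : ∀ z, dist z z₀ < δ → z ≠ z₀ → ext f.1 z ≠ 0 ∧ z ∈ ball (0:ℂ) r :=
    fun z hz hz' => hδ2 ⟨hz, hz'⟩
  set ρ : ℝ := δ / 2 with hρ
  have hρ0 : 0 < ρ := by positivity
  have hρδ : ρ < δ := by linarith
  have hcb : closedBall z₀ ρ ⊆ ball (0:ℂ) r := by
    intro z hz
    by_cases h : z = z₀
    · rwa [h]
    · exact (hgood z (lt_of_le_of_lt hz hρδ) h).2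
  have hsph : ∀ z ∈ sphere z₀ ρ, ext f.1 z ≠ 0 := by
    intro z hz
    have hz' : dist z z₀ = ρ := hz
    refine (hgood z (by rw [hz']; exact hρδ) ?_).1
    rintro rfl
    rw [dist_self] at hz'
    linarith
  have hcont : ContinuousOn (ext f.1) (sphere z₀ ρ) :=
    (continuousOn_ext _).mono
      (sphere_subset_closedBall.trans (hcb.trans (hsub.trans ball_subset_closedBall)))
  obtain ⟨ε, hε, hε2⟩ := lower_bound (isCompact_sphere z₀ ρ) hcont hsph
  refine ⟨ε / 4, by positivity, fun g hg => ?_⟩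
  by_contra hcon
  push Not at hcon
  have hg1 : ∀ z, ‖ext g.1 z - ext f.1 z‖ < ε / 4 := fun z =>
    lt_of_le_of_lt (norm_ext_sub_le g f z) hg
  have hdc : DiffContOnCl ℂ (fun z => (ext g.1 z)⁻¹) (ball z₀ ρ) := by
    have h2 : DiffContOnCl ℂ (ext g.1) (ball z₀ ρ) := by
      refine DifferentiableOn.diffContOnCl ?_
      rw [closure_ball _ hρ0.ne']
      exact (hd g).mono (hcb.trans hsub)
    refine h2.inv ?_
    intro z hz
    rw [closure_ball _ hρ0.ne'] at hz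
    exact hcon z (hcb hz)
  have h5 := Complex.norm_le_of_forall_mem_frontier_norm_le isBounded_ball hdc
    (C := (3 * ε / 4)⁻¹) (by
      intro z hz
      rw [frontier_ball _ hρ0.ne'] at hz
      rw [norm_inv]
      refine inv_anti₀ (by positivity) ?_
      have h6 := hε2 z hz
      have h7 := norm_sub_norm_le (ext f.1 z) (ext g.1 z)
      rw [norm_sub_rev] at h7
      linarith [hg1 z])
    (subset_closure (mem_ball_self hρ0))
  have h8 : ‖ext g.1 z₀‖ < ε / 4 := by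
    have := hg1 z₀
    rwa [hf, sub_zero] at this
  have h9 : 0 < ‖ext g.1 z₀‖ := norm_pos_iff.mpr (hcon z₀ hz₀)
  rw [norm_inv] at h5
  have h10 := (inv_le_inv₀ h9 (by positivity)).mp h5
  linarith

lemma isOpen_SS {r : ℝ} (hr : r ≤ 1) : IsOpen (SS r) := by
  rw [Metric.isOpen_iff]
  intro f hf
  have hcs : ∀ g : discAlg, ContinuousOn (ext g.1) (sphere (0:ℂ) 1) := fun g =>
    (continuousOn_ext _).mono sphere_subset_closedBall
  obtain ⟨m, hm, hm2⟩ := lower_bound (isCompact_sphere (0:ℂ) 1) (hcs f) hf.1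
  have hnz : ∀ g : discAlg, dist g f < m → ∀ z ∈ sphere (0:ℂ) 1, ext g.1 z ≠ 0 := by
    intro g hg z hz h0
    have h1 := norm_ext_sub_le g f z
    rw [h0, zero_sub, norm_neg] at h1
    linarith [hm2 z hz]
  rcases hf.2 with ⟨z₀, hz₀, h0⟩ | ⟨u, hu, hu2⟩
  · obtain ⟨ε, hε, hε2⟩ := zero_stable hr hf.1 hz₀ h0
    refine ⟨min m ε, lt_min hm hε, fun g hg => ?_⟩
    rw [mem_ball, lt_min_iff] at hg
    exact ⟨hnz g hg.1, Or.inl (hε2 g hg.2)⟩
  · refine ⟨m, hm, fun g hg => ?_⟩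
    rw [mem_ball] at hg
    refine ⟨hnz g hg, Or.inr ?_⟩
    obtain ⟨v, hv, hv2⟩ := sqrt_near (q := fun z => ext g.1 z / ext f.1 z)
      ((hcs g).div (hcs f) hf.1) (by
        intro z hz
        have h1 := hf.1 z hz
        have h2 : ext g.1 z / ext f.1 z - 1 = (ext g.1 z - ext f.1 z) / ext f.1 z := by
          field_simp
        rw [h2, norm_div, div_lt_one (norm_pos_iff.mpr h1)]
        exact lt_of_lt_of_le (lt_of_le_of_lt (norm_ext_sub_le g f z) hg) (hm2 z hz))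
    refine ⟨fun z => u z * v z, hu.mul hv, fun z hz => ?_⟩
    have h1 := hf.1 z hz
    simp only []
    rw [mul_pow, hu2 z hz, hv2 z hz]
    field_simp

/-- the function `z` -/
noncomputable def zz : discAlg :=
  ⟨⟨Subtype.val, continuous_subtype_val⟩, by
    rw [mem_discAlg]
    refine differentiableOn_id.congr ?_
    intro z hz
    rw [ext_of_mem _ (ball_subset_closedBall hz)]
    rfl⟩

lemma ext_zz_pow (n : ℕ) {z : ℂ} (hz : z ∈ closedBall (0:ℂ) 1) : ext (zz ^ n).1 z = z ^ n := by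
  rw [ext_of_mem _ hz]
  simp [zz]

lemma zz_mem {r : ℝ} (hr : 0 < r) : zz ∈ SS r := by
  have h : ∀ z ∈ closedBall (0:ℂ) 1, ext zz.1 z = z := by
    intro z hz
    have := ext_zz_pow 1 hz
    simpa using this
  refine ⟨fun z hz => ?_, Or.inl ⟨0, mem_ball_self hr, h 0 (by simp)⟩⟩
  rw [h z (sphere_subset_closedBall hz)]
  rintro rfl
  simp at hz

/-- the comparison element `zⁿ - c` -/
noncomputable def low (n : ℕ) (c : ℂ) : discAlg := zz ^ n - algebraMap ℂ discAlg c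

lemma ext_low (n : ℕ) (c : ℂ) {z : ℂ} (hz : z ∈ closedBall (0:ℂ) 1) :
    ext (low n c).1 z = z ^ n - c := by
  have e : (low n c).1 = (zz ^ n).1 - algebraMap ℂ _ c := rfl
  rw [e, ext_sub, ext_zz_pow n hz, ext_of_mem _ hz]
  simp

lemma even_dist {r : ℝ} (m : ℕ) (h : (SS r)ᶜ.Nonempty) : 1 ≤ infDist (zz ^ (2 * m)) (SS r)ᶜ := by
  rw [Metric.le_infDist h]
  intro f hf
  by_contra hlt
  push Not at hlt
  apply hf
  have h1 : ∀ z ∈ sphere (0:ℂ) 1, ‖z ^ (2 * m) - ext f.1 z‖ < 1 := by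
    intro z hz
    rw [← ext_zz_pow (2 * m) (sphere_subset_closedBall hz)]
    exact lt_of_le_of_lt (norm_ext_sub_le _ _ z) hlt
  have hn : ∀ z ∈ sphere (0:ℂ) 1, ‖z‖ = 1 := fun z hz => by simpa using hz
  refine ⟨fun z hz h0 => ?_, Or.inr ?_⟩
  · have := h1 z hz
    rw [h0, sub_zero, norm_pow, hn z hz, one_pow] at this
    exact lt_irrefl _ this
  · have hz0 : ∀ z ∈ sphere (0:ℂ) 1, z ^ (2 * m) ≠ 0 := by
      intro z hz
      refine pow_ne_zero _ ?_
      rintro rfl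
      simp at hz
    obtain ⟨v, hv, hv2⟩ := sqrt_near (s := sphere (0:ℂ) 1)
      (q := fun z => ext f.1 z / z ^ (2 * m))
      (((continuousOn_ext _).mono sphere_subset_closedBall).div (by fun_prop) hz0) (by
        intro z hz
        have h2 : ext f.1 z / z ^ (2 * m) - 1 = -((z ^ (2 * m) - ext f.1 z) / z ^ (2 * m)) := by
          have := hz0 z hz
          field_simp
          ring
        rw [h2, norm_neg, norm_div, norm_pow, hn z hz, one_pow, div_one]
        exact h1 z hz)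
    refine ⟨fun z => z ^ m * v z, (by fun_prop : ContinuousOn _ _).mul hv, fun z hz => ?_⟩
    have := hz0 z hz
    simp only []
    rw [mul_pow, hv2 z hz, ← pow_mul, mul_comm m 2]
    field_simp

lemma low_not_mem {r : ℝ} (hr0 : 0 < r) (hr : r < 1) (m : ℕ) :
    low (2 * m + 1) ((r:ℂ) ^ (2 * m + 1)) ∉ SS r := by
  rintro ⟨-, ⟨z, hz, h⟩ | ⟨g, hg, hg2⟩⟩
  · have hz1 : z ∈ closedBall (0:ℂ) 1 := ball_subset_closedBall (ball_subset_ball hr.le hz)
    rw [ext_low _ _ hz1, sub_eq_zero] at h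
    have h2 : ‖z‖ < r := by simpa using hz
    have h3 : ‖z‖ ^ (2 * m + 1) = r ^ (2 * m + 1) := by
      rw [← norm_pow, h, norm_pow, Complex.norm_real, Real.norm_of_nonneg hr0.le]
    have h4 : ‖z‖ ^ (2 * m + 1) < r ^ (2 * m + 1) :=
      pow_lt_pow_left₀ h2 (norm_nonneg _) (by omega)
    linarith
  · apply no_sqrt
    have hn : ∀ z ∈ sphere (0:ℂ) 1, ‖z‖ = 1 := fun z hz => by simpa using hz
    have hz0 : ∀ z ∈ sphere (0:ℂ) 1, z ≠ 0 := by
      intro z hz
      rintro rfl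
      simp at hz
    have hb : ∀ z ∈ sphere (0:ℂ) 1, ‖((r:ℂ) / z) ^ (2 * m + 1)‖ < 1 := by
      intro z hz
      rw [norm_pow, norm_div, hn z hz, div_one, Complex.norm_real, Real.norm_of_nonneg hr0.le]
      exact pow_lt_one₀ hr0.le hr (by omega)
    obtain ⟨v, hv, hv2⟩ := sqrt_near (s := sphere (0:ℂ) 1)
      (q := fun z => 1 - ((r:ℂ) / z) ^ (2 * m + 1))
      (continuousOn_const.sub ((continuousOn_const.div continuousOn_id hz0).pow _)) (by
        intro z hz
        rw [sub_sub_cancel_left, norm_neg]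
        exact hb z hz)
    have hq0 : ∀ z ∈ sphere (0:ℂ) 1, 1 - ((r:ℂ) / z) ^ (2 * m + 1) ≠ 0 := by
      intro z hz h0
      have := hb z hz
      rw [← sub_eq_zero.mp h0] at this
      simp at this
    have hv0 : ∀ z ∈ sphere (0:ℂ) 1, v z ≠ 0 := by
      intro z hz h0
      apply hq0 z hz
      have := hv2 z hz
      rw [← this, h0]
      simp
    refine ⟨fun z => g z / (v z * z ^ m), hg.div (hv.mul (by fun_prop))
      (fun z hz => mul_ne_zero (hv0 z hz) (pow_ne_zero _ (hz0 z hz))), fun z hz => ?_⟩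
    have a1 := hg2 z hz
    rw [ext_low _ _ (sphere_subset_closedBall hz)] at a1
    have a2 := hv2 z hz
    have a3 := hz0 z hz
    have a4 := hq0 z hz
    simp only [] at a2 ⊢
    rw [div_pow, mul_pow, a1, a2, div_eq_iff (mul_ne_zero a4 (pow_ne_zero _ (pow_ne_zero _ a3)))]
    rw [div_pow]
    field_simp
    ring

lemma odd_dist {r : ℝ} (hr0 : 0 < r) (hr : r < 1) (m : ℕ) :
    infDist (zz ^ (2 * m + 1)) (SS r)ᶜ ≤ r ^ (2 * m + 1) := by
  refine (Metric.infDist_le_dist_of_mem (low_not_mem hr0 hr m)).trans ?_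
  have e : zz ^ (2 * m + 1) - low (2 * m + 1) ((r:ℂ) ^ (2 * m + 1))
      = algebraMap ℂ discAlg ((r:ℂ) ^ (2 * m + 1)) := by
    unfold low
    abel
  rw [dist_eq_norm, e]
  have e2 : ‖algebraMap ℂ discAlg ((r:ℂ) ^ (2 * m + 1))‖
      = ‖(algebraMap ℂ C(closedBall (0:ℂ) 1, ℂ) ((r:ℂ) ^ (2 * m + 1)))‖ := rfl
  rw [e2]
  refine (ContinuousMap.norm_le _ (by positivity)).mpr ?_
  intro z
  simp [abs_of_pos hr0]

end Pool.Agent.X86.OS
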